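import Pool.Agent.K1H74.PB.Neg
import Pool.Agent.K1H74.PB.Zero

/-!
# Deterministic partially blind and general counter machines with boundedly many reversals

The two classes of languages differ for every number `c ≥ 1` of reversals, and are equal for
`c = 0`. For `c ≥ 1` the difference is witnessed by the words `a ^ n b ^ m` with `n < m`: a
deterministic machine with one counter and one reversal accepts this language, but if a
deterministic quasi-realtime blind machine accepted it with at most `c` reversals, then the counters
after the input `a ^ n`, compared along a sequence of numbers `n` given by the lemma of Dickson,
would be bounded (a computation with larger counters imitates one with smaller counters until the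
input has been read completely), and so some `a ^ n` and `a ^ n'` could not be distinguished.

Both conventions about the end of the input word (with and without moves after it has been read
completely) and both readings of determinism (in all configurations, or only in those which occur
in computations) are covered by the parameters `e` and `s`.
-/

set_option autoImplicit false

namespace Pool.Agent.Results.MP_24384b_lc.OnlyWithoutReversals

open Pool.Agent.K1H74.PB

/-- For each of the conventions: the classes of the languages accepted with at most `c` reversals by
the deterministic quasi-realtime machines with and without blind counters are equal exactly for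
`c = 0`; moreover some language over two letters is accepted by a deterministic quasi-realtime
machine with at most `c` reversals for each `c ≥ 1`, but by no deterministic quasi-realtime machine
with blind counters, for any number of reversals. -/
theorem result :
    ∀ e s : Bool,
      (∀ c : ℕ, (∀ (A : Type) [Finite A],
        Langs A c (fun M => DPBlind M e s) = Langs A c (fun M => DCounter M e s)) ↔ c = 0) ∧
      ∃ L : Set (List Bool), (∀ c, 1 ≤ c → L ∈ Langs Bool c (fun M => DCounter M e s)) ∧
        ∀ c, L ∉ Langs Bool c (fun M => DPBlind M e s) := by
  intro e s
  have hpos : ∀ c, 1 ≤ c → L0 ∈ Langs Bool c (fun M => DCounter M e s) := fun c hc =>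
    ⟨M0, ⟨M0_quasi, M0_det s, M0_end e⟩, (LR_M0 c hc).symm⟩
  have hneg : ∀ c, L0 ∉ Langs Bool c (fun M => DPBlind M e s) := by
    rintro c ⟨M, hM, hL⟩
    exact no_machine hM hL.symm
  refine ⟨fun c => ⟨fun h => ?_, fun h A _ => ?_⟩, L0, hpos, hneg⟩
  · by_contra hc
    have := hpos c (Nat.one_le_iff_ne_zero.2 hc)
    rw [← h Bool] at this
    exact hneg c this
  · subst h
    exact langs_zero A e s

end Pool.Agent.Results.MP_24384b_lc.OnlyWithoutReversals
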